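import Mathlib

/-!
# MP_34b97f_an: Furstenberg systems of random multiplicative functions. Definitions
-/

open MeasureTheory ProbabilityTheory Filter Topology Finset
open scoped ENNReal

namespace Pool.Agent.H89.MT

/-- the interval `[-1,1]` -/
abbrev I1 : Type := Set.Icc (-1 : ℝ) 1

/-- the compact space `[-1,1]^ℤ` -/
abbrev X : Type := ℤ → I1

/-- the element `0` of `[-1,1]` -/
def z1 : I1 := ⟨0, by norm_num, by norm_num⟩

/-- the element `1` of `[-1,1]` -/
def o1 : I1 := ⟨1, by norm_num, by norm_num⟩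

/-- the element `-1` of `[-1,1]` -/
def m1 : I1 := ⟨-1, by norm_num, by norm_num⟩

/-- the point `S^n u` of `[-1,1]^ℤ`, where `u(m) = 0` for `m ≤ 0` -/
def pt (u : ℕ → I1) (n : ℕ) : X := fun m =>
  if 0 < (n : ℤ) + m then u ((n : ℤ) + m).toNat else z1

/-- the logarithmic average `(1 / log N) ∑_{n ≤ N} f(n) / n` -/
noncomputable def lavg (N : ℕ) (f : ℕ → ℝ) : ℝ := (∑ n ∈ Icc 1 N, f n / n) / Real.log N

/-- multiplicative functions with values in `[-1,1]` -/
def IsMult (u : ℕ → I1) : Prop :=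
  (u 1 : ℝ) = 1 ∧ ∀ m n : ℕ, 0 < m → 0 < n → m.Coprime n → (u (m * n) : ℝ) = u m * u n

/-- `κ` is logarithmically quasi-generic for `u` (so `([-1,1]^ℤ, κ, S)` is a Furstenberg system
of `u`) -/
def QuasiGeneric (u : ℕ → I1) (κ : Measure X) : Prop :=
  IsProbabilityMeasure κ ∧ ∃ N : ℕ → ℕ, Tendsto N atTop atTop ∧
    ∀ F : C(X, ℝ), Tendsto (fun k => lavg (N k) fun n => F (pt u n)) atTop (𝓝 (∫ x, F x ∂κ))

/-- `u` is generic for `κ`: the logarithmic averages converge along all `N` -/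
def Generic (u : ℕ → I1) (κ : Measure X) : Prop :=
  ∀ F : C(X, ℝ), Tendsto (fun N => lavg N fun n => F (pt u n)) atTop (𝓝 (∫ x, F x ∂κ))

/-- the law of a fair sign -/
noncomputable def fair : Measure I1 :=
  (2⁻¹ : ℝ≥0∞) • Measure.dirac o1 + (2⁻¹ : ℝ≥0∞) • Measure.dirac m1

instance : IsProbabilityMeasure fair := ⟨by
  simp [fair, ENNReal.inv_two_add_inv_two]⟩

/-- the Bernoulli measure: the coordinates are independent fair signs -/
noncomputable def bern : Measure X := Measure.infinitePi fun _ : ℤ => fair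

/-- A random multiplicative function with values `1, -1`: the restrictions of `u` to the powers of
the different primes are independent. Their laws are arbitrary. -/
structure RandomMult {Ω : Type*} [MeasurableSpace Ω] (P : Measure Ω) (u : Ω → ℕ → I1) : Prop where
  mult : ∀ ω, IsMult (u ω)
  val : ∀ ω n, 0 < n → |(u ω n : ℝ)| = 1
  meas : ∀ n, Measurable fun ω => u ω n
  indep : iIndepFun (fun (p : Nat.Primes) ω (k : ℕ) => u ω ((p : ℕ) ^ (k + 1))) P

/-- `1 - |E u(p)|` -/
noncomputable def wt {Ω : Type*} [MeasurableSpace Ω] (P : Measure Ω) (u : Ω → ℕ → I1) (p : ℕ) : ℝ :=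
  1 - |∫ ω, (u ω p : ℝ) ∂P|

/-- the primes up to `N` -/
def pr (N : ℕ) : Finset ℕ := (Icc 1 N).filter Nat.Prime

/-- `∑_{p ≤ N} w(p) / p` -/
noncomputable def SS (w : ℕ → ℝ) (N : ℕ) : ℝ := ∑ p ∈ pr N, w p / p

/-- `∑ w(p)` over the primes `p` which divide `n` exactly once -/
noncomputable def om (w : ℕ → ℝ) (n : ℕ) : ℝ := ∑ p ∈ n.primeFactors with ¬ p ^ 2 ∣ n, w p

/-- the number of primes which divide `a` and `b` -/
def nu (a b : ℕ) : ℕ := (a.primeFactors ∩ b.primeFactors).card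

/-- the primes which divide exactly one of the numbers `a i`, and this number exactly once -/
def single {ι : Type} [Fintype ι] [DecidableEq ι] (a : ι → ℕ) : Finset ℕ :=
  (univ.biUnion fun i => (a i).primeFactors).filter fun p =>
    ∃ i, ¬ p ^ 2 ∣ a i ∧ ∀ j, j ≠ i → ¬ p ∣ a j

/-- correlations of `u` -/
noncomputable def corr (u : ℕ → I1) (H : Finset ℕ) (n : ℕ) : ℝ := ∏ h ∈ H, (u (n + h) : ℝ)

end Pool.Agent.H89.MT
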