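import Pool.Agent.H89.MT.Targets

/-!
# MP_34b97f_an: assembly
-/

open MeasureTheory ProbabilityTheory Filter Topology Finset
open scoped ENNReal

universe u

namespace Pool.Agent.H89.MT

theorem abs_le_I1 (x : I1) : |(x : ℝ)| ≤ 1 := abs_le.2 ⟨x.2.1, x.2.2⟩

instance : IsProbabilityMeasure bern := by unfold bern; infer_instance

theorem corr_abs_le (u : ℕ → I1) (H : Finset ℕ) (n : ℕ) : |corr u H n| ≤ 1 := by
  unfold corr
  rw [Finset.abs_prod]
  exact Finset.prod_le_one (fun _ _ => abs_nonneg _) fun _ _ => abs_le_I1 _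

theorem main (hMOM : T_MOM.{u}) (hBCL : T_BCL.{u}) (hINT : T_INT) (hGEN : T_GEN) (hUNQ : T_UNQ) :
    T_MAIN.{u} := by
  intro Ω _ P _ u hu δ hδ hS
  have hmeas : ∀ (H : Finset ℕ) (n : ℕ), Measurable fun ω => corr (u ω) H n := by
    intro H n
    unfold corr
    exact Finset.measurable_fun_prod _ fun h _ => measurable_subtype_coe.comp (hu.meas (n + h))
  have h1 : ∀ᵐ ω ∂P, ∀ H : Finset ℕ, ∀ k : ℕ, H.Nonempty →
      Tendsto (fun j => lavg (scale k j) (corr (u ω) H)) atTop (𝓝 0) := by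
    rw [ae_all_iff]
    intro H
    rw [ae_all_iff]
    intro k
    by_cases hH : H.Nonempty
    · filter_upwards [hBCL Ω P (fun ω => corr (u ω) H) (hmeas H) (fun ω n => corr_abs_le _ _ _)
        (SS (wt P u)) δ hδ hS (hMOM Ω P u hu H hH) k] with ω hω _
      exact hω
    · exact Eventually.of_forall fun ω h => absurd h hH
  filter_upwards [h1] with ω hω
  have hG : Generic (u ω) bern := hGEN (u ω) (hu.val ω) fun H hH =>
    hINT _ (corr_abs_le _ _) fun k => hω H k hH
  exact ⟨hG, hUNQ (u ω) bern inferInstance hG⟩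

end Pool.Agent.H89.MT
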