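import Pool.Agent.H89.MT.Defs

/-!
# MP_34b97f_an: targets of the modules (board mt_modules)
-/

open MeasureTheory ProbabilityTheory Filter Topology Finset
open scoped ENNReal

universe u

namespace Pool.Agent.H89.MT

/-! ## Number theory -/

/-- (MERT) Mertens, upper bound -/
def T_MERT : Prop := ∃ C : ℝ, ∀ N : ℕ, 3 ≤ N → SS (fun _ => 1) N ≤ Real.log (Real.log N) + C

/-- (EUL) Euler product, upper bound -/
def T_EUL : Prop := ∀ f : ℕ → ℝ, (∀ n, 0 ≤ f n) → (∀ n, f n ≤ 1) →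
  (∀ m n : ℕ, 0 < m → 0 < n → m.Coprime n → f (m * n) = f m * f n) →
  ∀ N : ℕ, ∑ n ∈ Icc 1 N, f n / n ≤ Real.exp (SS f N + 1)

/-- (DIV) logarithmic density of a residue class, upper bound -/
def T_DIV : Prop := ∀ a d N : ℕ, 1 ≤ d →
  ∑ n ∈ Icc 1 N with d ∣ n + a, (1 : ℝ) / n ≤ ((a : ℝ) + 1) / d * (1 + Real.log ((N : ℝ) + a))

/-- (GCD) exponential moments of the number of common prime factors -/
def T_GCD : Prop := ∀ (K : ℝ) (a b : ℕ), 1 ≤ K → ∃ C : ℝ, ∀ N : ℕ, 3 ≤ N →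
  ∑ n ∈ Icc 1 N, ∑ m ∈ Icc 1 N, K ^ nu (n + a) (m + b) / ((n : ℝ) * m) ≤ C * Real.log N ^ 2

/-- (OM) numbers with few prime factors -/
def T_OM : Prop := ∀ a : ℕ, ∃ C : ℝ, 0 < C ∧ ∀ w : ℕ → ℝ, (∀ p, 0 ≤ w p) → (∀ p, w p ≤ 1) →
  ∀ N : ℕ, 3 ≤ N → ∑ n ∈ Icc 1 N, Real.exp (-(2 * om w (n + a))) / n ≤
    C * Real.log N * Real.exp (-(SS w N / 2))

/-- (CMB) most prime factors of the numbers `n i + h₀` divide no other number `n j + h` -/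
def T_CMB : Prop := ∀ w : ℕ → ℝ, (∀ p, 0 ≤ w p) → (∀ p, w p ≤ 1) → ∀ (H : Finset ℕ), ∀ h₀ ∈ H,
  ∀ (m : ℕ) (n : Fin m → ℕ), (∀ i, 0 < n i) →
  ∑ i, om w (n i + h₀) ≤ ∑ p ∈ single (fun q : Fin m × H => n q.1 + (q.2 : ℕ)), w p +
    (m : ℝ) * (∑ h ∈ H, (h + h₀) : ℕ) +
    ∑ i, ∑ j ∈ univ.erase i, ∑ h ∈ H, (nu (n i + h₀) (n j + h) : ℝ)

/-! ## Probability -/

/-- (EXP) expectation of a product of values of a random multiplicative function -/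
def T_EXP : Prop := ∀ (Ω : Type u) [MeasurableSpace Ω] (P : Measure Ω) [IsProbabilityMeasure P]
  (u : Ω → ℕ → I1), RandomMult P u → ∀ (ι : Type) [Fintype ι] [DecidableEq ι] (a : ι → ℕ),
  (∀ i, 0 < a i) →
  |∫ ω, ∏ i, (u ω (a i) : ℝ) ∂P| ≤ Real.exp (-∑ p ∈ single a, wt P u p)

/-- (MOM) moments of the logarithmic averages of the correlations -/
def T_MOM : Prop := ∀ (Ω : Type u) [MeasurableSpace Ω] (P : Measure Ω) [IsProbabilityMeasure P]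
  (u : Ω → ℕ → I1), RandomMult P u → ∀ H : Finset ℕ, H.Nonempty → ∀ r : ℕ, 1 ≤ r →
  ∃ C : ℝ, ∀ N : ℕ, 3 ≤ N → ∫ ω, lavg N (corr (u ω) H) ^ (2 * r) ∂P ≤
    C * Real.exp (-((r : ℝ) / 2 * SS (wt P u) N))

/-- a sparse sequence of scales -/
noncomputable def scale (k j : ℕ) : ℕ := ⌈Real.exp (Real.exp ((j : ℝ) / (k + 1)))⌉₊

/-- (BCL) almost sure convergence along the scales -/
def T_BCL : Prop := ∀ (Ω : Type u) [MeasurableSpace Ω] (P : Measure Ω) [IsProbabilityMeasure P]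
  (x : Ω → ℕ → ℝ), (∀ n, Measurable fun ω => x ω n) → (∀ ω n, |x ω n| ≤ 1) →
  ∀ (S : ℕ → ℝ) (δ : ℝ), 0 < δ →
  (∀ᶠ N : ℕ in atTop, δ * Real.log (Real.log (Real.log N)) ≤ S N) →
  (∀ r : ℕ, 1 ≤ r → ∃ C : ℝ, ∀ N : ℕ, 3 ≤ N → ∫ ω, lavg N (x ω) ^ (2 * r) ∂P ≤
    C * Real.exp (-((r : ℝ) / 2 * S N))) →
  ∀ k : ℕ, ∀ᵐ ω ∂P, Tendsto (fun j => lavg (scale k j) (x ω)) atTop (𝓝 0)

/-- (INT) interpolation between the scales -/
def T_INT : Prop := ∀ x : ℕ → ℝ, (∀ n, |x n| ≤ 1) →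
  (∀ k : ℕ, Tendsto (fun j => lavg (scale k j) x) atTop (𝓝 0)) →
  Tendsto (fun N => lavg N x) atTop (𝓝 0)

/-! ## From correlations to genericity -/

/-- (SHF) correlations with arbitrary integer shifts -/
def T_SHF : Prop := ∀ u : ℕ → I1,
  (∀ H : Finset ℕ, H.Nonempty → Tendsto (fun N => lavg N (corr u H)) atTop (𝓝 0)) →
  ∀ J : Finset ℤ, J.Nonempty →
    Tendsto (fun N => lavg N fun n => ∏ j ∈ J, (pt u n j : ℝ)) atTop (𝓝 0)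

/-- (CYL) approximation by polynomials in finitely many coordinates, for points with coordinates
`1, -1` -/
def T_CYL : Prop := ∀ (F : C(X, ℝ)) (ε : ℝ), 0 < ε → ∃ (J : Finset ℤ) (c : Finset ℤ → ℝ),
  ∀ x : X, (∀ j ∈ J, |(x j : ℝ)| = 1) → |F x - ∑ H ∈ J.powerset, c H * ∏ j ∈ H, (x j : ℝ)| ≤ ε

/-- (BER) the Bernoulli measure -/
def T_BER : Prop := (∀ᵐ x ∂bern, ∀ j : ℤ, |(x j : ℝ)| = 1) ∧
  ∀ J : Finset ℤ, J.Nonempty → ∫ x, ∏ j ∈ J, (x j : ℝ) ∂bern = 0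

/-- (GEN) vanishing correlations imply genericity for the Bernoulli measure -/
def T_GEN : Prop := ∀ u : ℕ → I1, (∀ n, 0 < n → |(u n : ℝ)| = 1) →
  (∀ H : Finset ℕ, H.Nonempty → Tendsto (fun N => lavg N (corr u H)) atTop (𝓝 0)) →
  Generic u bern

/-- (UNQ) a generic function has only one Furstenberg system -/
def T_UNQ : Prop := ∀ (u : ℕ → I1) (κ : Measure X), IsProbabilityMeasure κ → Generic u κ →
  ∀ κ' : Measure X, QuasiGeneric u κ' ↔ κ' = κ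

/-- (MAIN) -/
def T_MAIN : Prop := ∀ (Ω : Type u) [MeasurableSpace Ω] (P : Measure Ω) [IsProbabilityMeasure P]
  (u : Ω → ℕ → I1), RandomMult P u → ∀ δ : ℝ, 0 < δ →
  (∀ᶠ N : ℕ in atTop, δ * Real.log (Real.log (Real.log N)) ≤ SS (wt P u) N) →
  ∀ᵐ ω ∂P, Generic (u ω) bern ∧ ∀ κ : Measure X, QuasiGeneric (u ω) κ ↔ κ = bern

end Pool.Agent.H89.MT
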